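import Mathlib

/-!
# AG-TWA, abstract part: a ring which is a product of two fields, and a group acting on it
-/

set_option autoImplicit false

namespace Pool.Agent.Helper33.AG

universe u v

section Fields

variable {R : Type u} [CommRing R]

/-- The annihilator of `e`. -/
def ann (e : R) : Ideal R := LinearMap.ker (LinearMap.mulLeft R e)

theorem mem_ann {e x : R} : x ∈ ann e ↔ e * x = 0 := by
  simp [ann]

theorem ann_max {e : R} (he : e ≠ 0) (hf : ∀ x : R, x * e ≠ 0 → ∃ y, x * y * e = e) :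
    (ann e).IsMaximal := by
  rw [Ideal.isMaximal_iff]
  refine ⟨fun h => he ?_, fun J x hIJ hx hxJ => ?_⟩
  · simpa using mem_ann.1 h
  · obtain ⟨y, hy⟩ := hf x (fun h => hx (mem_ann.2 (by rw [mul_comm]; exact h)))
    have h1 : 1 - x * y ∈ ann e := mem_ann.2 (by linear_combination - hy)
    have h2 := J.add_mem (hIJ h1) (J.mul_mem_right y hxJ)
    simpa using h2

end Fields

section Gal

variable {p : ℕ} [hp : Fact p.Prime] {K : Type u} [Field K] [Algebra (ZMod p) K] [Finite K]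

theorem gal_card : Nat.card (K ≃ₐ[ZMod p] K) = Module.finrank (ZMod p) K :=
  IsGalois.card_aut_eq_finrank _ _

theorem gal_comm (x y : K ≃ₐ[ZMod p] K) : x * y = y * x := by
  have := IsCyclic.isMulCommutative (α := K ≃ₐ[ZMod p] K)
  exact mul_comm' x y

theorem fin_pos : 0 < Module.finrank (ZMod p) K := Module.finrank_pos

theorem card_K : Nat.card K = p ^ Module.finrank (ZMod p) K := by
  rw [Module.natCard_eq_pow_finrank (K := ZMod p), Nat.card_zmod]

theorem card_U : Nat.card Kˣ = p ^ Module.finrank (ZMod p) K - 1 := by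
  rw [Nat.card_units, card_K (p := p)]

end Gal

section Maps

variable {p : ℕ} [hp : Fact p.Prime] {R : Type u} [CommRing R] [Algebra (ZMod p) R]

theorem ann_map (g : R ≃ₐ[ZMod p] R) {e e' : R} (h : g e = e') :
    ann e' = (ann e).map (g : R →+* R) := by
  apply le_antisymm
  · intro x hx
    have h1 : g.symm x ∈ ann e := by
      rw [mem_ann] at hx ⊢
      apply g.injective
      rw [map_mul, map_zero, h, AlgEquiv.apply_symm_apply]
      exact hx
    have h2 := Ideal.mem_map_of_mem (g : R →+* R) h1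
    have h3 : (g : R →+* R) (g.symm x) = x := g.apply_symm_apply x
    rwa [h3] at h2
  · rw [Ideal.map_le_iff_le_comap]
    intro x hx
    rw [Ideal.mem_comap, mem_ann]
    change e' * g x = 0
    rw [← h, ← map_mul, mem_ann.1 hx, map_zero]

/-- The map induced on the quotients by the annihilators. -/
noncomputable def qe (g : R ≃ₐ[ZMod p] R) {e e' : R} (h : g e = e') :
    (R ⧸ ann e) ≃ₐ[ZMod p] (R ⧸ ann e') :=
  Ideal.quotientEquivAlg (ann e) (ann e') g (ann_map g h)

theorem qe_mk (g : R ≃ₐ[ZMod p] R) {e e' : R} (h : g e = e') (x : R) :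
    qe g h (Ideal.Quotient.mk (ann e) x) = Ideal.Quotient.mk (ann e') (g x) := rfl

/-- The action of a group fixing `e`. -/
noncomputable def Phi {M : Type v} [Group M] (c : M →* (R ≃ₐ[ZMod p] R)) (e : R)
    (h : ∀ m, c m e = e) : M →* ((R ⧸ ann e) ≃ₐ[ZMod p] (R ⧸ ann e)) :=
  MonoidHom.mk' (fun m => qe (c m) (h m)) (by
    intro a b
    apply AlgEquiv.ext
    intro x
    obtain ⟨x, rfl⟩ := Ideal.Quotient.mk_surjective x
    rw [AlgEquiv.mul_apply, qe_mk, qe_mk, qe_mk, map_mul, AlgEquiv.mul_apply])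

theorem Phi_mk {M : Type v} [Group M] (c : M →* (R ≃ₐ[ZMod p] R)) (e : R)
    (h : ∀ m, c m e = e) (m : M) (x : R) :
    Phi c e h m (Ideal.Quotient.mk (ann e) x) = Ideal.Quotient.mk (ann e) (c m x) := rfl

theorem Phi_eq_one {M : Type v} [Group M] (c : M →* (R ≃ₐ[ZMod p] R)) (e : R)
    (h : ∀ m, c m e = e) (m : M) :
    Phi c e h m = 1 ↔ ∀ x, e * (c m x - x) = 0 := by
  constructor
  · intro h1 x
    have h2 : Phi c e h m (Ideal.Quotient.mk (ann e) x) = Ideal.Quotient.mk (ann e) x := by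
      rw [h1]; rfl
    rw [Phi_mk, Ideal.Quotient.eq] at h2
    exact mem_ann.1 h2
  · intro h1
    apply AlgEquiv.ext
    intro x
    obtain ⟨x, rfl⟩ := Ideal.Quotient.mk_surjective x
    rw [Phi_mk, AlgEquiv.one_apply, Ideal.Quotient.eq]
    exact mem_ann.2 (h1 x)

end Maps

section Quot

variable {p : ℕ} [hp : Fact p.Prime] {R : Type u} [CommRing R] [Algebra (ZMod p) R] [Finite R]

theorem gal_card' {I : Ideal R} (h : I.IsMaximal) :
    Nat.card ((R ⧸ I) ≃ₐ[ZMod p] (R ⧸ I)) = Module.finrank (ZMod p) (R ⧸ I) := by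
  let _ := Ideal.Quotient.field I
  have : Finite (R ⧸ I) := Finite.of_surjective _ Ideal.Quotient.mk_surjective
  exact gal_card

theorem gal_comm' {I : Ideal R} (h : I.IsMaximal) (x y : (R ⧸ I) ≃ₐ[ZMod p] (R ⧸ I)) :
    x * y = y * x := by
  let _ := Ideal.Quotient.field I
  have : Finite (R ⧸ I) := Finite.of_surjective _ Ideal.Quotient.mk_surjective
  exact gal_comm x y

theorem fin_pos' {I : Ideal R} (h : I.IsMaximal) : 0 < Module.finrank (ZMod p) (R ⧸ I) := by
  let _ := Ideal.Quotient.field I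
  have : Finite (R ⧸ I) := Finite.of_surjective _ Ideal.Quotient.mk_surjective
  exact fin_pos

theorem card_K' {I : Ideal R} (h : I.IsMaximal) :
    Nat.card (R ⧸ I) = p ^ Module.finrank (ZMod p) (R ⧸ I) := by
  let _ := Ideal.Quotient.field I
  have : Finite (R ⧸ I) := Finite.of_surjective _ Ideal.Quotient.mk_surjective
  exact card_K

theorem card_U' {I : Ideal R} (h : I.IsMaximal) :
    Nat.card (R ⧸ I)ˣ = p ^ Module.finrank (ZMod p) (R ⧸ I) - 1 := by
  let _ := Ideal.Quotient.field I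
  have : Finite (R ⧸ I) := Finite.of_surjective _ Ideal.Quotient.mk_surjective
  exact card_U

end Quot

section Main

variable {p : ℕ} [hp : Fact p.Prime] {R : Type u} [CommRing R] [Algebra (ZMod p) R] [Finite R]

theorem main {H : Type v} [Group H] [Finite H] (c : H →* (R ≃ₐ[ZMod p] R)) (e : Fin 2 → R)
    (ne : ∀ i, e i ≠ 0) (orth : e 0 * e 1 = 0) (sum : e 0 + e 1 = 1)
    (fld : ∀ i, ∀ x : R, x * e i ≠ 0 → ∃ y, x * y * e i = e i)
    (perm : ∀ h i, ∃ j, c h (e i) = e j) (trans : ∃ h, c h (e 0) = e 1) :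
    ∃ (a f : ℕ) (M : Subgroup H), 0 < a ∧ 0 < f ∧ Nat.card (R ⧸ ann (e 0)) = p ^ a ∧
      c.ker ≤ M ∧ Nat.card H = 2 * Nat.card M ∧ Nat.card M = f * Nat.card c.ker ∧
      f ∣ a ^ 2 ∧ Nat.card Rˣ ∣ (p ^ a - 1) ^ 2 ∧
      (∀ x ∈ M, ∀ y ∈ M, x * y * x⁻¹ * y⁻¹ ∈ c.ker) ∧
      (2 ≤ a → f = a ^ 2 → ∃ x y : H, x * y * x⁻¹ * y⁻¹ ∉ c.ker) := by
  have idem : ∀ i, e i * e i = e i := by
    intro i
    fin_cases i
    · change e 0 * e 0 = e 0
      linear_combination e 0 * sum - orth
    · change e 1 * e 1 = e 1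
      linear_combination e 1 * sum - orth
  have hne01 : e 0 ≠ e 1 := fun h => ne 0 (by
    have h1 := idem 0
    rw [← h1]
    nth_rewrite 2 [h]
    exact orth)
  have hmax : ∀ i, (ann (e i)).IsMaximal := fun i => ann_max (ne i) (fld i)
  have hfin : ∀ i, Finite (R ⧸ ann (e i)) := fun i =>
    Finite.of_surjective _ Ideal.Quotient.mk_surjective
  -- the subgroup
  let M : Subgroup H :=
    { carrier := {h | c h (e 0) = e 0}
      mul_mem' := by
        intro a b ha hb
        change c a (e 0) = e 0 at ha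
        change c b (e 0) = e 0 at hb
        change c (a * b) (e 0) = e 0
        rw [map_mul, AlgEquiv.mul_apply, hb, ha]
      one_mem' := by
        change c 1 (e 0) = e 0
        rw [map_one, AlgEquiv.one_apply]
      inv_mem' := by
        intro a ha
        change c a (e 0) = e 0 at ha
        change c a⁻¹ (e 0) = e 0
        have h1 : c a (c a⁻¹ (e 0)) = e 0 := by
          rw [← AlgEquiv.mul_apply, ← map_mul, mul_inv_cancel, map_one, AlgEquiv.one_apply]
        apply (c a).injective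
        rw [h1, ha] }
  have hM : ∀ h, h ∈ M ↔ c h (e 0) = e 0 := fun h => Iff.rfl
  have he1 : e 1 = 1 - e 0 := by linear_combination sum
  have h0 : ∀ m : M, (c.comp M.subtype) m (e 0) = e 0 := fun m => m.2
  have h1 : ∀ m : M, (c.comp M.subtype) m (e 1) = e 1 := fun m => by
    rw [he1, map_sub, map_one, h0 m]
  let Φ : M →* ((R ⧸ ann (e 0)) ≃ₐ[ZMod p] (R ⧸ ann (e 0))) ×
      ((R ⧸ ann (e 1)) ≃ₐ[ZMod p] (R ⧸ ann (e 1))) :=
    (Phi (c.comp M.subtype) (e 0) h0).prod (Phi (c.comp M.subtype) (e 1) h1)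
  have hboth : ∀ x : R, e 0 * x = 0 → e 1 * x = 0 → x = 0 := by
    intro x hx hy
    have : (e 0 + e 1) * x = 0 := by rw [add_mul, hx, hy, add_zero]
    rwa [sum, one_mul] at this
  have hker : ∀ m : M, m ∈ Φ.ker ↔ (m : H) ∈ c.ker := by
    intro m
    rw [MonoidHom.mem_ker, MonoidHom.mem_ker]
    constructor
    · intro h
      have ha := (Phi_eq_one _ _ h0 m).1 (congrArg Prod.fst h)
      have hb := (Phi_eq_one _ _ h1 m).1 (congrArg Prod.snd h)
      apply AlgEquiv.ext
      intro x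
      have := hboth _ (ha x) (hb x)
      rw [AlgEquiv.one_apply]
      exact sub_eq_zero.1 this
    · intro h
      have hx : ∀ x, (c.comp M.subtype) m x - x = 0 := by
        intro x
        rw [MonoidHom.comp_apply]
        change c (m : H) x - x = 0
        rw [h, AlgEquiv.one_apply, sub_self]
      apply Prod.ext
      · exact (Phi_eq_one _ _ h0 m).2 (fun x => by rw [hx, mul_zero])
      · exact (Phi_eq_one _ _ h1 m).2 (fun x => by rw [hx, mul_zero])
  have hcM : c.ker ≤ M := by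
    intro h hh
    rw [hM, MonoidHom.mem_ker.1 hh, AlgEquiv.one_apply]
  have hkcard : Nat.card Φ.ker = Nat.card c.ker := by
    have : Φ.ker = c.ker.subgroupOf M := by
      ext m
      rw [hker, Subgroup.mem_subgroupOf]
    rw [this]
    exact Nat.card_congr (Subgroup.subgroupOfEquivOfLe hcM).toEquiv
  obtain ⟨τ, hτ⟩ := trans
  have hfr : Module.finrank (ZMod p) (R ⧸ ann (e 1)) = Module.finrank (ZMod p) (R ⧸ ann (e 0)) :=
    (qe (c τ) hτ).toLinearEquiv.finrank_eq.symm
  have hG0 := gal_card' (p := p) (hmax 0)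
  have hG1 := gal_card' (p := p) (hmax 1)
  rw [hfr] at hG1
  set a := Module.finrank (ZMod p) (R ⧸ ann (e 0)) with ha
  have hapos : 0 < a := fin_pos' (p := p) (hmax 0)
  have hGG : Nat.card (((R ⧸ ann (e 0)) ≃ₐ[ZMod p] (R ⧸ ann (e 0))) ×
      ((R ⧸ ann (e 1)) ≃ₐ[ZMod p] (R ⧸ ann (e 1)))) = a ^ 2 := by
    rw [Nat.card_prod, hG0, hG1, sq]
  have hGfin : Finite (((R ⧸ ann (e 0)) ≃ₐ[ZMod p] (R ⧸ ann (e 0))) ×
      ((R ⧸ ann (e 1)) ≃ₐ[ZMod p] (R ⧸ ann (e 1)))) :=
    Nat.finite_of_card_ne_zero (by rw [hGG]; positivity)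
  refine ⟨a, Nat.card Φ.range, M, hapos, Nat.card_pos, card_K' (p := p) (hmax 0), hcM, ?_, ?_, ?_,
    ?_, ?_, ?_⟩
  · have hidx : M.index = 2 := by
      rw [Subgroup.index_eq_two_iff]
      refine ⟨τ, fun b => ?_⟩
      have hb1 : c (b * τ) (e 0) = c b (e 1) := by rw [map_mul, AlgEquiv.mul_apply, hτ]
      by_cases hb : c b (e 0) = e 0
      · right
        refine ⟨hb, fun h => ?_⟩
        rw [hM, hb1, he1, map_sub, map_one, hb, ← he1] at h
        exact hne01 h.symm
      · left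
        refine ⟨?_, hb⟩
        obtain ⟨j, hj⟩ := perm b 0
        fin_cases j
        · exact absurd hj hb
        · change c b (e 0) = e 1 at hj
          rw [hM, hb1, he1, map_sub, map_one, hj, he1]
          ring
    rw [← M.card_mul_index, hidx, mul_comm]
  · rw [← Φ.ker.card_mul_index, Subgroup.index_ker, hkcard, mul_comm]
  · rw [← hGG]
    exact Subgroup.card_subgroup_dvd_card _
  · let Ψ : Rˣ →* (R ⧸ ann (e 0))ˣ × (R ⧸ ann (e 1))ˣ :=
      (Units.map (Ideal.Quotient.mk (ann (e 0))).toMonoidHom).prod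
        (Units.map (Ideal.Quotient.mk (ann (e 1))).toMonoidHom)
    have hinj : Function.Injective Ψ := by
      intro u v huv
      have ha := congrArg (fun z => (z.1 : R ⧸ ann (e 0))) huv
      have hb := congrArg (fun z => (z.2 : R ⧸ ann (e 1))) huv
      change Ideal.Quotient.mk (ann (e 0)) (u : R) = Ideal.Quotient.mk (ann (e 0)) (v : R) at ha
      change Ideal.Quotient.mk (ann (e 1)) (u : R) = Ideal.Quotient.mk (ann (e 1)) (v : R) at hb
      rw [Ideal.Quotient.eq, mem_ann] at ha hb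
      exact Units.ext (sub_eq_zero.1 (hboth _ ha hb))
    have h2 := Subgroup.card_dvd_of_injective Ψ hinj
    rw [Nat.card_prod, card_U' (p := p) (hmax 0), card_U' (p := p) (hmax 1), hfr, ← sq] at h2
    exact h2
  · intro x hx y hy
    have h2 := (hker (⟨x, hx⟩ * ⟨y, hy⟩ * ⟨x, hx⟩⁻¹ * ⟨y, hy⟩⁻¹)).1 (by
      rw [MonoidHom.mem_ker, map_mul, map_mul, map_mul, map_inv, map_inv]
      have h3 : Φ ⟨x, hx⟩ * Φ ⟨y, hy⟩ = Φ ⟨y, hy⟩ * Φ ⟨x, hx⟩ :=
        Prod.ext (gal_comm' (hmax 0) _ _) (gal_comm' (hmax 1) _ _)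
      rw [h3, mul_assoc, mul_assoc, mul_inv_cancel_left, mul_inv_cancel])
    exact h2
  · intro ha2 hf
    by_contra hcon
    push Not at hcon
    have htop : Φ.range = ⊤ := by
      apply Subgroup.eq_top_of_card_eq
      rw [hf, hGG]
    have hnt : Nontrivial ((R ⧸ ann (e 0)) ≃ₐ[ZMod p] (R ⧸ ann (e 0))) := by
      have : Finite ((R ⧸ ann (e 0)) ≃ₐ[ZMod p] (R ⧸ ann (e 0))) :=
        Nat.finite_of_card_ne_zero (by rw [hG0]; omega)
      rw [← Finite.one_lt_card_iff_nontrivial, hG0]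
      omega
    obtain ⟨α, hα⟩ := exists_ne (1 : (R ⧸ ann (e 0)) ≃ₐ[ZMod p] (R ⧸ ann (e 0)))
    obtain ⟨m, hm⟩ : ∃ m, Φ m = (α, 1) := by
      have : (α, (1 : (R ⧸ ann (e 1)) ≃ₐ[ZMod p] (R ⧸ ann (e 1)))) ∈ Φ.range := by
        rw [htop]; trivial
      exact this
    have hm1 := (Phi_eq_one _ _ h1 m).1 (congrArg Prod.snd hm)
    have hcomm : c τ * c (m : H) = c (m : H) * c τ := by
      have h2 := hcon τ (m : H)
      rw [MonoidHom.mem_ker, map_mul, map_mul, map_mul, map_inv, map_inv] at h2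
      rw [mul_inv_eq_one, mul_inv_eq_iff_eq_mul] at h2
      exact h2
    apply hα
    have hm0 : Phi (c.comp M.subtype) (e 0) h0 m = α := congrArg Prod.fst hm
    rw [← hm0]
    apply (Phi_eq_one _ _ h0 m).2
    intro y
    apply (c τ).injective
    rw [map_mul, map_sub, map_zero, hτ]
    have h3 : c τ ((c.comp M.subtype) m y) = c (m : H) (c τ y) := by
      have := congrArg (fun g : R ≃ₐ[ZMod p] R => g y) hcomm
      exact this
    rw [h3]
    exact hm1 (c τ y)

end Main

end Pool.Agent.Helper33.AG
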