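import Pool.Agent.Helper32.AG.Goals
import Pool.Agent.Helper33.AG.Abs

/-!
# AG-TWA: two blocks, structure
-/

set_option autoImplicit false

open Pool.Agent.Helper32.AG

namespace Pool.Agent.Helper33.AG

universe u v

section CJ

variable {p : ℕ} [Fact p.Prime] {U : Type u} [AddCommGroup U] [Module (ZMod p) U]

theorem cj_app (h : U ≃ₗ[ZMod p] U) (x : Module.End (ZMod p) U) (u : U) :
    cj h x u = h (x (h⁻¹ u)) := rfl

theorem cj_mul (h : U ≃ₗ[ZMod p] U) (x y : Module.End (ZMod p) U) :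
    cj h (x * y) = cj h x * cj h y := by
  ext u
  rw [Module.End.mul_apply, cj_app, cj_app, cj_app, Module.End.mul_apply]
  congr 1
  change _ = x ((h⁻¹ * h) _)
  rw [inv_mul_cancel]
  rfl

theorem cj_add (h : U ≃ₗ[ZMod p] U) (x y : Module.End (ZMod p) U) :
    cj h (x + y) = cj h x + cj h y := by
  ext u
  rw [LinearMap.add_apply, cj_app, cj_app, cj_app, LinearMap.add_apply, map_add]

theorem cj_alg (h : U ≃ₗ[ZMod p] U) (r : ZMod p) :
    cj h (algebraMap (ZMod p) (Module.End (ZMod p) U) r) = algebraMap (ZMod p) _ r := by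
  ext u
  rw [cj_app, Module.algebraMap_end_apply, Module.algebraMap_end_apply, map_smul]
  change r • (h * h⁻¹) u = _
  rw [mul_inv_cancel]
  rfl

theorem cj_one' (x : Module.End (ZMod p) U) : cj (1 : U ≃ₗ[ZMod p] U) x = x := by
  ext u
  rw [cj_app, inv_one]
  rfl

theorem cj_cj (g h : U ≃ₗ[ZMod p] U) (x : Module.End (ZMod p) U) :
    cj g (cj h x) = cj (g * h) x := by
  ext u
  rw [cj_app, cj_app, cj_app, mul_inv_rev]
  rfl

theorem cj_coe (h a : U ≃ₗ[ZMod p] U) :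
    cj h (a : Module.End (ZMod p) U) = ((h * a * h⁻¹ : U ≃ₗ[ZMod p] U) : Module.End (ZMod p) U) := by
  ext u
  rfl

theorem cj_mem (A : Subgroup (U ≃ₗ[ZMod p] U)) (h : U ≃ₗ[ZMod p] U)
    (hA : ∀ a ∈ A, h * a * h⁻¹ ∈ A) (x : Module.End (ZMod p) U) (hx : x ∈ Rg A) :
    cj h x ∈ Rg A := by
  induction hx using Algebra.adjoin_induction with
  | mem x hx =>
    obtain ⟨a, ha, rfl⟩ := hx
    rw [cj_coe]
    exact Algebra.subset_adjoin ⟨_, hA a ha, rfl⟩
  | algebraMap r =>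
    rw [cj_alg]
    exact Subalgebra.algebraMap_mem _ r
  | add x y _ _ hx hy =>
    rw [cj_add]
    exact Subalgebra.add_mem _ hx hy
  | mul x y _ _ hx hy =>
    rw [cj_mul]
    exact Subalgebra.mul_mem _ hx hy

/-- The conjugation on `Rg A`. -/
noncomputable def cR (H A : Subgroup (U ≃ₗ[ZMod p] U)) (hA : ∀ h ∈ H, ∀ a ∈ A, h * a * h⁻¹ ∈ A) :
    H →* (Rg A ≃ₐ[ZMod p] Rg A) :=
  MonoidHom.mk' (fun h =>
    { toFun := fun x => ⟨cj (h : U ≃ₗ[ZMod p] U) x, cj_mem A h (hA h h.2) x x.2⟩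
      invFun := fun x => ⟨cj ((h : U ≃ₗ[ZMod p] U)⁻¹) x,
        cj_mem A (h : U ≃ₗ[ZMod p] U)⁻¹ (hA _ (H.inv_mem h.2)) x x.2⟩
      left_inv := fun x => Subtype.ext (by
        change cj _ (cj _ _) = _
        rw [cj_cj, inv_mul_cancel, cj_one'])
      right_inv := fun x => Subtype.ext (by
        change cj _ (cj _ _) = _
        rw [cj_cj, mul_inv_cancel, cj_one'])
      map_mul' := fun x y => Subtype.ext (cj_mul _ _ _)
      map_add' := fun x y => Subtype.ext (cj_add _ _ _)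
      commutes' := fun r => Subtype.ext (cj_alg _ r) }) (by
    intro g h
    apply AlgEquiv.ext
    intro x
    exact Subtype.ext (cj_cj _ _ _).symm)

theorem cR_coe (H A : Subgroup (U ≃ₗ[ZMod p] U)) (hA : ∀ h ∈ H, ∀ a ∈ A, h * a * h⁻¹ ∈ A)
    (h : H) (x : Rg A) : ((cR H A hA h x : Rg A) : Module.End (ZMod p) U) =
      cj (h : U ≃ₗ[ZMod p] U) x := rfl

theorem cj_fix (A : Subgroup (U ≃ₗ[ZMod p] U)) (hab : ∀ a ∈ A, ∀ b ∈ A, a * b = b * a)
    (a : U ≃ₗ[ZMod p] U) (ha : a ∈ A) (x : Module.End (ZMod p) U) (hx : x ∈ Rg A) :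
    cj a x = x := by
  induction hx using Algebra.adjoin_induction with
  | mem x hx =>
    obtain ⟨b, hb, rfl⟩ := hx
    rw [cj_coe, hab a ha b hb, mul_inv_cancel_right]
  | algebraMap r => rw [cj_alg]
  | add x y _ _ hx hy => rw [cj_add, hx, hy]
  | mul x y _ _ hx hy => rw [cj_mul, hx, hy]

theorem mem_Rg (A : Subgroup (U ≃ₗ[ZMod p] U)) (a : U ≃ₗ[ZMod p] U) (ha : a ∈ A) :
    (a : Module.End (ZMod p) U) ∈ Rg A :=
  Algebra.subset_adjoin ⟨a, ha, rfl⟩

theorem mem_ker_cR (H A : Subgroup (U ≃ₗ[ZMod p] U)) (hAH : A ≤ H)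
    (hA : ∀ h ∈ H, ∀ a ∈ A, h * a * h⁻¹ ∈ A)
    (hab : ∀ a ∈ A, ∀ b ∈ A, a * b = b * a)
    (hc : ∀ h ∈ H, (∀ a ∈ A, h * a = a * h) → h ∈ A) (h : H) :
    h ∈ (cR H A hA).ker ↔ (h : U ≃ₗ[ZMod p] U) ∈ A := by
  rw [MonoidHom.mem_ker]
  constructor
  · intro h1
    apply hc _ h.2
    intro a ha
    have h2 : cR H A hA h ⟨a, mem_Rg A a ha⟩ = ⟨a, mem_Rg A a ha⟩ := by rw [h1]; rfl
    have h3 := congrArg (fun z : Rg A => (z : Module.End (ZMod p) U)) h2
    change cj (h : U ≃ₗ[ZMod p] U) (a : Module.End (ZMod p) U) = (a : Module.End (ZMod p) U) at h3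
    rw [cj_coe] at h3
    have h4 : (h : U ≃ₗ[ZMod p] U) * a * (h : U ≃ₗ[ZMod p] U)⁻¹ = a := by
      apply LinearEquiv.ext
      intro u
      exact congrArg (fun z : Module.End (ZMod p) U => z u) h3
    rw [mul_inv_eq_iff_eq_mul] at h4
    exact h4
  · intro h1
    apply AlgEquiv.ext
    intro x
    exact Subtype.ext (cj_fix A hab _ h1 x x.2)

end CJ

section Blk

theorem card_blk {R : Type u} [CommRing R] {N : Type v} [AddCommGroup N] [Module R N] [Finite N]
    [Nontrivial N] (I : Ideal R) (hI : I.IsMaximal) (h : ∀ x ∈ I, ∀ n : N, x • n = 0) :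
    ∃ b, 0 < b ∧ Nat.card N = Nat.card (R ⧸ I) ^ b := by
  have ht : Module.IsTorsionBySet R N (I : Set R) := fun n x => h x x.2 n
  let _ := ht.module
  let _ := Ideal.Quotient.field I
  have hf : Module.Finite (R ⧸ I) N := Module.Finite.of_finite
  refine ⟨Module.finrank (R ⧸ I) N, Module.finrank_pos, ?_⟩
  exact Module.natCard_eq_pow_finrank

end Blk

section Units

variable {p : ℕ} [Fact p.Prime] {U : Type u} [AddCommGroup U] [Module (ZMod p) U]

/-- The elements of `A` as units of `Rg A`. -/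
noncomputable def toU (A : Subgroup (U ≃ₗ[ZMod p] U)) : A →* (Rg A)ˣ :=
  MonoidHom.toHomUnits
    { toFun := fun a => ⟨((a : U ≃ₗ[ZMod p] U) : Module.End (ZMod p) U), mem_Rg A a a.2⟩
      map_one' := rfl
      map_mul' := fun _ _ => rfl }

theorem toU_inj (A : Subgroup (U ≃ₗ[ZMod p] U)) : Function.Injective (toU A) := by
  intro a b h
  have h1 := congrArg (fun z : (Rg A)ˣ => ((z : Rg A) : Module.End (ZMod p) U)) h
  change ((a : U ≃ₗ[ZMod p] U) : Module.End (ZMod p) U) =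
    ((b : U ≃ₗ[ZMod p] U) : Module.End (ZMod p) U) at h1
  apply Subtype.ext
  apply LinearEquiv.ext
  intro u
  exact congrArg (fun z : Module.End (ZMod p) U => z u) h1

end Units

open scoped IsMulCommutative in
theorem twa : TwaStmt.{u} := by
  intro p hp U _ _ _ _ H A q e hAH hA hab hc hD
  have hcm : IsMulCommutative (Rg A) := Algebra.isMulCommutative_adjoin (ZMod p) (by
    rintro _ ⟨a, ha, rfl⟩ _ ⟨b, hb, rfl⟩
    have h1 := hab a ha b hb
    have h2 := congrArg (fun z : U ≃ₗ[ZMod p] U => (z : Module.End (ZMod p) U)) h1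
    exact h2)
  have hcomm : ∀ x ∈ Rg A, ∀ y ∈ Rg A, x * y = y * x := by
    intro x hx y hy
    have h1 : (⟨x, hx⟩ : Rg A) * ⟨y, hy⟩ = ⟨y, hy⟩ * ⟨x, hx⟩ := mul_comm' _ _
    exact congrArg (fun z : Rg A => (z : Module.End (ZMod p) U)) h1
  let e' : Fin 2 → Rg A := fun i => ⟨e i, hD.mem i⟩
  have hfE : Finite (Module.End (ZMod p) U) := DFunLike.finite _
  have hfR : Finite (Rg A) := Subtype.finite
  have hfH : Finite H := by
    have : Finite (U ≃ₗ[ZMod p] U) := DFunLike.finite _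
    exact Subtype.finite
  have hne : ∀ i, e' i ≠ 0 := fun i h =>
    hD.ne i (congrArg (fun z : Rg A => (z : Module.End (ZMod p) U)) h)
  have hfld : ∀ i, ∀ x : Rg A, x * e' i ≠ 0 → ∃ y, x * y * e' i = e' i := by
    intro i x hx
    obtain ⟨y, hy, h⟩ := hD.fld i x x.2 (fun h => hx (Subtype.ext h))
    exact ⟨⟨y, hy⟩, Subtype.ext h⟩
  obtain ⟨τ, hτH, hτ⟩ := hD.trans 0 1
  obtain ⟨a, f, M, h1, h2, h3, h4, h5, h6, h7, h8, h9, h10⟩ :=
    main (p := p) (R := Rg A) (cR H A hA) e' hne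
      (Subtype.ext (hD.orth 0 1 (by decide)))
      (Subtype.ext (by
        have := hD.sum
        rw [Fin.sum_univ_two] at this
        exact this))
      hfld
      (fun h i => by
        obtain ⟨j, hj⟩ := hD.perm h h.2 i
        exact ⟨j, Subtype.ext hj⟩)
      ⟨⟨τ, hτH⟩, Subtype.ext hτ⟩
  have hker : (cR H A hA).ker = A.subgroupOf H := by
    ext h
    rw [mem_ker_cR H A hAH hA hab hc, Subgroup.mem_subgroupOf]
  have hkcard : Nat.card (cR H A hA).ker = Nat.card A := by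
    rw [hker]
    exact Nat.card_congr (Subgroup.subgroupOfEquivOfLe hAH).toEquiv
  have hMcard : Nat.card (M.map H.subtype) = Nat.card M :=
    (Nat.card_congr (M.equivMapOfInjective H.subtype H.subtype_injective).toEquiv).symm
  -- the block
  let N : Submodule (Rg A) U :=
    { carrier := Set.range (e 0)
      add_mem' := by
        rintro _ _ ⟨u, rfl⟩ ⟨v, rfl⟩
        exact ⟨u + v, map_add _ _ _⟩
      zero_mem' := ⟨0, map_zero _⟩
      smul_mem' := by
        rintro x _ ⟨u, rfl⟩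
        refine ⟨(x : Module.End (ZMod p) U) u, ?_⟩
        have := hcomm (e 0) (hD.mem 0) x x.2
        exact congrArg (fun z : Module.End (ZMod p) U => z u) this }
  have hNq : Nat.card N = q := hD.card 0
  have hNn : Nontrivial N := by
    by_contra hcon
    rw [not_nontrivial_iff_subsingleton] at hcon
    apply hD.ne 0
    apply LinearMap.ext
    intro u
    have h11 : (⟨e 0 u, ⟨u, rfl⟩⟩ : N) = 0 := Subsingleton.elim _ _
    exact congrArg (fun z : N => (z : U)) h11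
  obtain ⟨b, hb, hbq⟩ := card_blk (N := N) (ann (e' 0)) (ann_max (hne 0) (hfld 0)) (by
    rintro x hx ⟨_, u, rfl⟩
    rw [mem_ann] at hx
    apply Subtype.ext
    have h11 : (x : Module.End (ZMod p) U) * e 0 = 0 := by
      rw [hcomm x x.2 (e 0) (hD.mem 0)]
      exact congrArg (fun z : Rg A => (z : Module.End (ZMod p) U)) hx
    exact congrArg (fun z : Module.End (ZMod p) U => z u) h11)
  have hdvd : Nat.card A ∣ (p ^ a - 1) ^ 2 :=
    (Subgroup.card_dvd_of_injective (toU A) (toU_inj A)).trans h8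
  have hpa : 2 ≤ p ^ a := by
    calc 2 ≤ p := hp.out.two_le
      _ = p ^ 1 := (pow_one p).symm
      _ ≤ p ^ a := Nat.pow_le_pow_right hp.out.pos h1
  refine ⟨a, b, f, M.map H.subtype, h1, hb, h2, ?_, ?_, ?_, ?_, ?_, h7, ?_, hdvd, ?_, ?_⟩
  · rw [← hNq, hbq, h3, ← pow_mul]
  · intro x hx
    have hx2 : (⟨x, hAH hx⟩ : H) ∈ (cR H A hA).ker :=
      (mem_ker_cR H A hAH hA hab hc _).2 hx
    exact ⟨⟨x, hAH hx⟩, h4 hx2, rfl⟩
  · rintro _ ⟨x, -, rfl⟩
    exact x.2
  · rw [hMcard, h5]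
  · rw [hMcard, h6, hkcard]
  · exact Nat.le_of_dvd (by
      have : 0 < p ^ a - 1 := by omega
      positivity) hdvd
  · rintro _ ⟨x, hx, rfl⟩ _ ⟨y, hy, rfl⟩
    exact (mem_ker_cR H A hAH hA hab hc _).1 (h9 x hx y hy)
  · intro ha2 hf
    obtain ⟨x, y, hxy⟩ := h10 ha2 hf
    exact ⟨x, x.2, y, y.2, fun h => hxy ((mem_ker_cR H A hAH hA hab hc _).2 h)⟩

end Pool.Agent.Helper33.AG
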